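import Pool.Agent.P.MP_1b62a1_an.Main

namespace Pool.Agent.Results.MP_1b62a1_an.HereditarilyHypercyclic

/-- The locally convex direct sum topology on the algebraic direct sum of the spaces `X n`: the
finest among the locally convex vector space topologies whose restriction to each summand is its
norm topology (finer topologies are smaller in the lattice of topologies). -/
@[reducible] def lcSumTopology (𝕜 : Type*) [RCLike 𝕜] (X : ℕ → Type*)
    [∀ n, NormedAddCommGroup (X n)] [∀ n, NormedSpace 𝕜 (X n)] [∀ n, Module ℝ (X n)] :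
    TopologicalSpace (DFinsupp X) :=
  sInf {t : TopologicalSpace (DFinsupp X) |
    @IsTopologicalAddGroup (DFinsupp X) t _ ∧ @ContinuousSMul 𝕜 (DFinsupp X) _ _ t ∧
    @LocallyConvexSpace ℝ (DFinsupp X) _ _ _ _ t ∧
    ∀ n, TopologicalSpace.induced (fun x : X n => (DFinsupp.single n x : DFinsupp X)) t =
      (inferInstance : TopologicalSpace (X n))}

theorem result (𝕜 : Type*) [RCLike 𝕜] (X : ℕ → Type*)
    [∀ n, NormedAddCommGroup (X n)] [∀ n, NormedSpace 𝕜 (X n)] [∀ n, CompleteSpace (X n)]
    [∀ n, TopologicalSpace.SeparableSpace (X n)]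
    [∀ n, Module ℝ (X n)] [∀ n, IsScalarTower ℝ 𝕜 (X n)]
    (hinf : ∀ n, ¬ FiniteDimensional 𝕜 (X n)) :
    ∃ T : Module.End 𝕜 (DFinsupp X),
      @Continuous _ _ (lcSumTopology 𝕜 X) (lcSumTopology 𝕜 X) T ∧
      ∀ B : Set ℕ, B.Infinite →
        ∃ x : DFinsupp X, @Dense _ (lcSumTopology 𝕜 X) ((fun n : ℕ => (T ^ n) x) '' B) := by
  obtain ⟨s⟩ := Pool.Agent.P.MP_1b62a1_an.exists_sys 𝕜 X hinf
  refine ⟨s.T, ?_, fun B hB => ?_⟩
  · refine continuous_sInf_rng.2 ?_
    rintro t ⟨h1, h2, h3, h4⟩
    have hι : ∀ n, Continuous (fun x : X n => (DFinsupp.single n x : DFinsupp X)) := fun n =>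
      continuous_iff_le_induced.2 (h4 n).ge
    refine continuous_iff_le_induced.2 (le_trans (sInf_le ?_) (inf_le_left (b := t)))
    refine ⟨topologicalAddGroup_inf (topologicalAddGroup_induced s.T) h1, ?_,
      LocallyConvexSpace.inf (LocallyConvexSpace.induced (s.T.restrictScalars ℝ)) h3, fun n => ?_⟩
    · exact @continuousSMul_inf _ _ _ _ _ _ (continuousSMul_induced s.T) h2
    · rw [induced_inf, h4 n, inf_eq_right, induced_compose]
      exact continuous_iff_le_induced.1 (s.continuous_T_single hι n)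
  · let := lcSumTopology 𝕜 X
    have : IsTopologicalAddGroup (DFinsupp X) := topologicalAddGroup_sInf fun t ht => ht.1
    have : ContinuousSMul 𝕜 (DFinsupp X) := continuousSMul_sInf fun t ht => ht.2.1
    exact s.dense_orbit (fun n => continuous_sInf_rng.2 fun t ht =>
      continuous_iff_le_induced.2 (ht.2.2.2 n).ge) hB

end Pool.Agent.Results.MP_1b62a1_an.HereditarilyHypercyclic
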